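import Pool.Agent.D0H34.KC.Stm

/-!
# Module CPX of project KC of helper34 (MP_176ace_nt): real and complex roots
-/

set_option autoImplicit false

open Polynomial

namespace Pool.Agent.D0H49.KC

open Pool.Agent.D0H34.KC

lemma sumH (H t : ℝ) (hH : 0 ≤ H) (ht : 4 * H ≤ t) (d : ℕ) :
    3 * ∑ j ∈ Finset.range d, H ^ (d - j) * t ^ j ≤ t ^ d := by
  have ht0 : 0 ≤ t := by linarith
  induction d with
  | zero => simp
  | succ d ih =>
    have h1 : ∑ j ∈ Finset.range (d + 1), H ^ (d + 1 - j) * t ^ j =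
        H * (∑ j ∈ Finset.range d, H ^ (d - j) * t ^ j + t ^ d) := by
      rw [Finset.sum_range_succ, mul_add, Finset.mul_sum]
      congr 1
      · refine Finset.sum_congr rfl fun j hj => ?_
        rw [Finset.mem_range] at hj
        rw [Nat.sub_add_comm hj.le, pow_succ]
        ring
      · rw [Nat.add_sub_cancel_left, pow_one]
    rw [h1, pow_succ]
    have h2 : 0 ≤ t ^ d := by positivity
    have h3 := mul_le_mul_of_nonneg_left ih hH
    have h4 := mul_le_mul_of_nonneg_right ht h2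
    nlinarith

lemma sumD (H u v : ℝ) (hH : 0 ≤ H) (hv : 4 * H ≤ v) (huv : v ≤ u) (d : ℕ) :
    3 * ∑ j ∈ Finset.range d, H ^ (d - j) * (u ^ j - v ^ j) ≤ u ^ d - v ^ d := by
  have hv0 : 0 ≤ v := by linarith
  induction d with
  | zero => simp
  | succ d ih =>
    have h1 : ∑ j ∈ Finset.range (d + 1), H ^ (d + 1 - j) * (u ^ j - v ^ j) =
        H * (∑ j ∈ Finset.range d, H ^ (d - j) * (u ^ j - v ^ j) + (u ^ d - v ^ d)) := by
      rw [Finset.sum_range_succ, mul_add, Finset.mul_sum]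
      congr 1
      · refine Finset.sum_congr rfl fun j hj => ?_
        rw [Finset.mem_range] at hj
        rw [Nat.sub_add_comm hj.le, pow_succ]
        ring
      · rw [Nat.add_sub_cancel_left, pow_one]
    rw [h1]
    have h2 : 0 ≤ u ^ d - v ^ d := sub_nonneg.2 (pow_le_pow_left₀ hv0 huv d)
    have h3 := mul_le_mul_of_nonneg_left ih hH
    have h4 : 4 * H * (u ^ d - v ^ d) ≤ u * (u ^ d - v ^ d) :=
      mul_le_mul_of_nonneg_right (by linarith) h2
    have h5 : 0 ≤ (u - v) * v ^ d := mul_nonneg (by linarith) (by positivity)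
    have h6 : u ^ (d + 1) - v ^ (d + 1) = u * (u ^ d - v ^ d) + (u - v) * v ^ d := by ring
    rw [h6]
    linarith

lemma aeval_g {R : Type} [CommRing R] (g : ℤ[X]) (hg : g.Monic) (d : ℕ) (hd : g.natDegree = d) (x : R) :
    aeval x g = ∑ j ∈ Finset.range d, (g.coeff j : R) * x ^ j + x ^ d := by
  rw [Polynomial.aeval_eq_sum_range, Finset.sum_range_succ, hd]
  have h1 : g.coeff d = 1 := by rw [← hd]; exact hg
  rw [h1, one_smul]
  congr 1
  refine Finset.sum_congr rfl fun j _ => ?_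
  rw [zsmul_eq_mul]

lemma aeval_pol {R : Type} [CommRing R] {k : ℕ} (a : Fin k → ℤ) (g : ℤ[X]) (c : ℤ) (x : R) :
    aeval x (pol a g c) = (∏ i, (x - (a i : R))) * aeval x g + (c : R) := by
  simp [pol, map_prod]

/-- upper bound of `g` -/
lemma g_upper {R : Type} [NormedField R] (g : ℤ[X]) (hg : g.Monic) (d H : ℕ)
    (hd : g.natDegree = d) (hc : ∀ j < d, ‖(g.coeff j : R)‖ ≤ (H : ℝ) ^ (d - j)) (x : R) :
    ‖aeval x g‖ ≤ (‖x‖ + H) ^ d := by
  rw [aeval_g g hg d hd x, add_pow, Finset.sum_range_succ]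
  refine (norm_add_le _ _).trans ?_
  apply add_le_add
  · refine (norm_sum_le _ _).trans ?_
    refine Finset.sum_le_sum fun j hj => ?_
    rw [Finset.mem_range] at hj
    rw [norm_mul, norm_pow]
    have h1 : (1 : ℝ) ≤ (d.choose j : ℝ) := by
      exact_mod_cast Nat.choose_pos hj.le
    have h2 := hc j hj
    calc ‖(g.coeff j : R)‖ * ‖x‖ ^ j ≤ (H : ℝ) ^ (d - j) * ‖x‖ ^ j :=
          mul_le_mul_of_nonneg_right h2 (by positivity)
      _ = ‖x‖ ^ j * (H : ℝ) ^ (d - j) * 1 := by ring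
      _ ≤ ‖x‖ ^ j * (H : ℝ) ^ (d - j) * (d.choose j : ℝ) :=
          mul_le_mul_of_nonneg_left h1 (by positivity)
  · rw [norm_pow]
    simp

/-- lower bound of `g` -/
lemma g_lower {R : Type} [NormedField R] (g : ℤ[X]) (hg : g.Monic) (d H : ℕ)
    (hd : g.natDegree = d) (hc : ∀ j < d, ‖(g.coeff j : R)‖ ≤ (H : ℝ) ^ (d - j)) (x : R)
    (hx : 4 * (H : ℝ) ≤ ‖x‖) : 2 / 3 * ‖x‖ ^ d ≤ ‖aeval x g‖ := by
  rw [aeval_g g hg d hd x]
  have h1 := sumH H ‖x‖ (Nat.cast_nonneg _) hx d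
  have h2 : ‖∑ j ∈ Finset.range d, (g.coeff j : R) * x ^ j‖ ≤
      ∑ j ∈ Finset.range d, (H : ℝ) ^ (d - j) * ‖x‖ ^ j := by
    refine (norm_sum_le _ _).trans ?_
    refine Finset.sum_le_sum fun j hj => ?_
    rw [Finset.mem_range] at hj
    rw [norm_mul, norm_pow]
    exact mul_le_mul_of_nonneg_right (hc j hj) (by positivity)
  have h3 : ‖x ^ d‖ ≤ ‖∑ j ∈ Finset.range d, (g.coeff j : R) * x ^ j + x ^ d‖ +
      ‖∑ j ∈ Finset.range d, (g.coeff j : R) * x ^ j‖ := by
    have := norm_sub_le (∑ j ∈ Finset.range d, (g.coeff j : R) * x ^ j + x ^ d)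
      (∑ j ∈ Finset.range d, (g.coeff j : R) * x ^ j)
    rwa [add_sub_cancel_left] at this
  rw [norm_pow] at h3
  linarith

/-- `|g|` is strictly decreasing on `(-∞, -4H]` -/
lemma g_mono (g : ℤ[X]) (hg : g.Monic) (d H : ℕ) (hH : 1 ≤ H) (hd1 : 1 ≤ d)
    (hd : g.natDegree = d) (hc : ∀ j < d, |(g.coeff j : ℝ)| ≤ (H : ℝ) ^ (d - j)) (u v : ℝ)
    (hv : 4 * (H : ℝ) ≤ v) (huv : v < u) : |aeval (-v) g| < |aeval (-u) g| := by
  have hH1 : (1 : ℝ) ≤ (H : ℝ) := by exact_mod_cast hH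
  have hv0 : 0 < v := by linarith
  have hs : |(-1 : ℝ) ^ d| = 1 := by rw [abs_pow, abs_neg, abs_one, one_pow]
  have habs : ∀ w : ℝ, |aeval (-w) g| = |(-1 : ℝ) ^ d * aeval (-w) g| := fun w => by
    rw [abs_mul, hs, one_mul]
  have he : ∀ w : ℝ, (-1 : ℝ) ^ d * aeval (-w) g =
      w ^ d + (-1 : ℝ) ^ d * ∑ j ∈ Finset.range d, (g.coeff j : ℝ) * (-w) ^ j := fun w => by
    rw [aeval_g g hg d hd (-w), mul_add, ← mul_pow]
    have : (-1 : ℝ) * -w = w := by ring
    rw [this]
    ring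
  rw [habs u, habs v, he u, he v]
  -- the difference
  have hdiff : |∑ j ∈ Finset.range d, (g.coeff j : ℝ) * (-u) ^ j -
      ∑ j ∈ Finset.range d, (g.coeff j : ℝ) * (-v) ^ j| ≤
      ∑ j ∈ Finset.range d, (H : ℝ) ^ (d - j) * (u ^ j - v ^ j) := by
    rw [← Finset.sum_sub_distrib]
    refine (Finset.abs_sum_le_sum_abs _ _).trans ?_
    refine Finset.sum_le_sum fun j hj => ?_
    rw [Finset.mem_range] at hj
    rw [← mul_sub, abs_mul]
    have h1 : |(-u) ^ j - (-v) ^ j| = u ^ j - v ^ j := by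
      rw [neg_pow u, neg_pow v, ← mul_sub, abs_mul, abs_pow, abs_neg, abs_one, one_pow, one_mul,
        abs_of_nonneg (sub_nonneg.2 (pow_le_pow_left₀ hv0.le huv.le j))]
    rw [h1]
    exact mul_le_mul_of_nonneg_right (hc j hj)
      (sub_nonneg.2 (pow_le_pow_left₀ hv0.le huv.le j))
  have hD := sumD H u v (by linarith) hv huv.le d
  have hpow : v ^ d < u ^ d := pow_lt_pow_left₀ huv hv0.le (by omega)
  have hSv : |∑ j ∈ Finset.range d, (g.coeff j : ℝ) * (-v) ^ j| ≤
      ∑ j ∈ Finset.range d, (H : ℝ) ^ (d - j) * v ^ j := by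
    refine (Finset.abs_sum_le_sum_abs _ _).trans ?_
    refine Finset.sum_le_sum fun j hj => ?_
    rw [Finset.mem_range] at hj
    rw [abs_mul, abs_pow, abs_neg, abs_of_pos hv0]
    exact mul_le_mul_of_nonneg_right (hc j hj) (by positivity)
  have hHv := sumH H v (by linarith) hv d
  have hvd : 0 < v ^ d := by positivity
  set Su := ∑ j ∈ Finset.range d, (g.coeff j : ℝ) * (-u) ^ j
  set Sv := ∑ j ∈ Finset.range d, (g.coeff j : ℝ) * (-v) ^ j
  have h1 : |(-1 : ℝ) ^ d * Sv| = |Sv| := by rw [abs_mul, hs, one_mul]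
  have h2 : |(-1 : ℝ) ^ d * (Su - Sv)| = |Su - Sv| := by rw [abs_mul, hs, one_mul]
  have h3 := neg_abs_le ((-1 : ℝ) ^ d * Sv)
  have h4 := neg_abs_le ((-1 : ℝ) ^ d * (Su - Sv))
  rw [h1] at h3
  rw [h2, mul_sub] at h4
  have h5 : 0 < v ^ d + (-1 : ℝ) ^ d * Sv := by linarith
  rw [abs_of_pos h5]
  refine lt_of_lt_of_le ?_ (le_abs_self _)
  linarith

/-- a real root of `f` is smaller than `-4 H` -/
lemma root_lt (n k d H : ℕ) (a : Fin k → ℤ) (c : ℤ) (g : ℤ[X]) (hn : k + d = n) (hH : 1 ≤ H)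
    (hg : g.Monic) (hd : g.natDegree = d)
    (hc : ∀ j < d, 0 ≤ g.coeff j ∧ g.coeff j ≤ (H : ℤ) ^ (d - j))
    (ha : ∀ i, |a i| ≤ H) (hcH : (10 * H : ℤ) ^ n < c) (x : ℝ) (hx : aeval x (pol a g c) = 0) :
    x < -(4 * H) := by
  have hH1 : (1 : ℝ) ≤ (H : ℝ) := by exact_mod_cast hH
  have hcR : (10 * (H : ℝ)) ^ n < (c : ℝ) := by exact_mod_cast hcH
  have haR : ∀ i, |(a i : ℝ)| ≤ H := fun i => by exact_mod_cast ha i
  have hcc : ∀ j < d, ‖(g.coeff j : ℝ)‖ ≤ (H : ℝ) ^ (d - j) := by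
    intro j hj
    obtain ⟨h0, h1⟩ := hc j hj
    rw [Real.norm_eq_abs, abs_of_nonneg (by exact_mod_cast h0)]
    exact_mod_cast h1
  have hc0 : (0 : ℝ) < c := lt_of_le_of_lt (by positivity) hcR
  rw [aeval_pol] at hx
  by_contra h
  rw [not_lt] at h
  rcases le_total x (4 * H) with h4 | h4
  · have hxa : |x| ≤ 4 * H := abs_le.2 ⟨by linarith, h4⟩
    have hA : |∏ i, (x - (a i : ℝ))| ≤ (5 * H) ^ k := by
      rw [Finset.abs_prod]
      calc ∏ i, |x - (a i : ℝ)| ≤ ∏ _i : Fin k, (5 * (H : ℝ)) := by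
            refine Finset.prod_le_prod (fun i _ => abs_nonneg _) fun i _ => ?_
            have := abs_sub x (a i : ℝ)
            linarith [haR i]
        _ = (5 * H) ^ k := by rw [Finset.prod_const, Finset.card_univ, Fintype.card_fin]
    have hG : |aeval x g| ≤ (5 * H) ^ d := by
      have h1 := g_upper g hg d H hd hcc x
      rw [Real.norm_eq_abs, Real.norm_eq_abs] at h1
      exact h1.trans (pow_le_pow_left₀ (by positivity) (by linarith) d)
    have h1 : (c : ℝ) = |(∏ i, (x - (a i : ℝ))) * aeval x g| := by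
      have : (∏ i, (x - (a i : ℝ))) * aeval x g = -c := by linarith
      rw [this, abs_neg, abs_of_pos hc0]
    have h2 : |(∏ i, (x - (a i : ℝ))) * aeval x g| ≤ (5 * H) ^ n := by
      rw [abs_mul, ← hn, pow_add]
      exact mul_le_mul hA hG (abs_nonneg _) (by positivity)
    have h3 : (5 * (H : ℝ)) ^ n ≤ (10 * H) ^ n := pow_le_pow_left₀ (by positivity) (by linarith) n
    linarith
  · have hA : 0 < ∏ i, (x - (a i : ℝ)) := by
      refine Finset.prod_pos fun i _ => ?_
      have := le_abs_self (a i : ℝ)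
      linarith [haR i]
    have hG : 0 < aeval x g := by
      rw [aeval_g g hg d hd x]
      have h1 : 0 ≤ ∑ j ∈ Finset.range d, (g.coeff j : ℝ) * x ^ j := by
        refine Finset.sum_nonneg fun j hj => ?_
        rw [Finset.mem_range] at hj
        have h2 : (0 : ℝ) ≤ (g.coeff j : ℝ) := by exact_mod_cast (hc j hj).1
        have h3 : 0 ≤ x := by linarith
        positivity
      have h3 : 0 < x := by linarith
      positivity
    have := mul_pos hA hG
    linarith

/-- Module CPX. -/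
theorem t_CPX : S_CPX := by
  intro n k H K a c g hkn hH hg hdeg hcoef ha hc1 hc2
  obtain ⟨d, hd⟩ : ∃ d, k + d = n := ⟨n - k, by omega⟩
  have hdk : n - k = d := by omega
  rw [hdk] at hdeg hcoef
  have hd1 : 1 ≤ d := by omega
  have hH1 : (1 : ℝ) ≤ (H : ℝ) := by exact_mod_cast hH
  have hcR : (10 * (H : ℝ)) ^ n < (c : ℝ) := by exact_mod_cast hc1
  have hcR2 : (c : ℝ) ≤ (K * (H : ℝ)) ^ n := by exact_mod_cast hc2
  have haR : ∀ i, |(a i : ℝ)| ≤ H := fun i => by exact_mod_cast ha i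
  have hcc : ∀ j < d, |(g.coeff j : ℝ)| ≤ (H : ℝ) ^ (d - j) := by
    intro j hj
    obtain ⟨h0, h1⟩ := hcoef j hj
    rw [abs_of_nonneg (by exact_mod_cast h0)]
    exact_mod_cast h1
  have hc0 : (0 : ℝ) < c := lt_of_le_of_lt (by positivity) hcR
  constructor
  · -- uniqueness of the real root
    have key : ∀ x y : ℝ, aeval x (pol a g c) = 0 → aeval y (pol a g c) = 0 → ¬ x < y := by
      intro x y hx hy hxy
      have hx4 := root_lt n k d H a c g hd hH hg hdeg hcoef ha hc1 x hx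
      have hy4 := root_lt n k d H a c g hd hH hg hdeg hcoef ha hc1 y hy
      have hG := g_mono g hg d H hH hd1 hdeg hcc (-x) (-y) (by linarith) (by linarith)
      rw [neg_neg, neg_neg] at hG
      rw [aeval_pol] at hx hy
      have hA : |∏ i, (y - (a i : ℝ))| ≤ |∏ i, (x - (a i : ℝ))| := by
        rw [Finset.abs_prod, Finset.abs_prod]
        refine Finset.prod_le_prod (fun i _ => abs_nonneg _) fun i _ => ?_
        have h1 := neg_abs_le (a i : ℝ)
        have h2 := haR i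
        rw [abs_of_neg (by linarith), abs_of_neg (by linarith)]
        linarith
      have hA0 : 0 < |∏ i, (y - (a i : ℝ))| := by
        rw [abs_pos, Finset.prod_ne_zero_iff]
        intro i _
        have h1 := neg_abs_le (a i : ℝ)
        have h2 := haR i
        have : y - (a i : ℝ) < 0 := by linarith
        exact this.ne
      have e1 : |∏ i, (x - (a i : ℝ))| * |aeval x g| = c := by
        rw [← abs_mul]
        have : (∏ i, (x - (a i : ℝ))) * aeval x g = -c := by linarith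
        rw [this, abs_neg, abs_of_pos hc0]
      have e2 : |∏ i, (y - (a i : ℝ))| * |aeval y g| = c := by
        rw [← abs_mul]
        have : (∏ i, (y - (a i : ℝ))) * aeval y g = -c := by linarith
        rw [this, abs_neg, abs_of_pos hc0]
      have h3 : |∏ i, (y - (a i : ℝ))| * |aeval y g| < |∏ i, (y - (a i : ℝ))| * |aeval x g| :=
        mul_lt_mul_of_pos_left hG hA0
      have h4 : |∏ i, (y - (a i : ℝ))| * |aeval x g| ≤ |∏ i, (x - (a i : ℝ))| * |aeval x g| :=
        mul_le_mul_of_nonneg_right hA (abs_nonneg _)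
      linarith
    intro x y hx hy
    rcases lt_trichotomy x y with h | h | h
    · exact absurd h (key x y hx hy)
    · exact h
    · exact absurd h (key y x hy hx)
  · intro z hz
    by_contra hcon
    rw [not_le] at hcon
    have hK : (1 : ℝ) ≤ K := by
      by_contra hK
      have hK0 : K = 0 := by
        by_contra h
        exact hK (by exact_mod_cast Nat.one_le_iff_ne_zero.2 h)
      rw [hK0] at hcR2
      have hn0 : n ≠ 0 := by omega
      rw [Nat.cast_zero, zero_mul, zero_pow hn0] at hcR2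
      linarith
    have hKH : (1 : ℝ) * H ≤ K * H := mul_le_mul_of_nonneg_right hK (by linarith)
    have hz4 : 4 * (H : ℝ) ≤ ‖z‖ := by linarith
    have hz0 : 0 < ‖z‖ := by linarith
    have hcc' : ∀ j < d, ‖(g.coeff j : ℂ)‖ ≤ (H : ℝ) ^ (d - j) := by
      intro j hj
      rw [Complex.norm_intCast]
      exact hcc j hj
    have hG := g_lower g hg d H hdeg hcc' z hz4
    have hA : (3 / 4 * ‖z‖) ^ k ≤ ‖∏ i, (z - (a i : ℂ))‖ := by
      rw [norm_prod]
      calc (3 / 4 * ‖z‖) ^ k = ∏ _i : Fin k, (3 / 4 * ‖z‖) := by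
            rw [Finset.prod_const, Finset.card_univ, Fintype.card_fin]
        _ ≤ ∏ i, ‖z - (a i : ℂ)‖ := by
            refine Finset.prod_le_prod (fun i _ => by positivity) fun i _ => ?_
            have h1 := norm_sub_norm_le z (a i : ℂ)
            rw [Complex.norm_intCast] at h1
            linarith [haR i]
    rw [aeval_pol] at hz
    have e1 : ‖∏ i, (z - (a i : ℂ))‖ * ‖aeval z g‖ = c := by
      rw [← norm_mul]
      have : (∏ i, (z - (a i : ℂ))) * aeval z g = -(c : ℂ) := by linear_combination hz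
      rw [this, norm_neg, Complex.norm_intCast, abs_of_pos hc0]
    have h1 : (3 / 4 * ‖z‖) ^ k * (2 / 3 * ‖z‖ ^ d) ≤ c := by
      rw [← e1]
      exact mul_le_mul hA hG (by positivity) (by positivity)
    have h2 : (1 / 2 * ‖z‖) ^ k ≤ (3 / 4 * ‖z‖) ^ k :=
      pow_le_pow_left₀ (by positivity) (by linarith) k
    have h3 : (1 / 2 * ‖z‖) ^ d ≤ 2 / 3 * ‖z‖ ^ d := by
      rw [mul_pow]
      apply mul_le_mul_of_nonneg_right _ (by positivity)
      calc (1 / 2 : ℝ) ^ d ≤ (1 / 2) ^ 1 := pow_le_pow_of_le_one (by norm_num) (by norm_num) hd1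
        _ ≤ 2 / 3 := by norm_num
    have h4 : (1 / 2 * ‖z‖) ^ n ≤ c := by
      rw [← hd, pow_add]
      exact (mul_le_mul h2 h3 (by positivity) (by positivity)).trans h1
    have h5 : (K * (H : ℝ)) ^ n < (1 / 2 * ‖z‖) ^ n := by
      apply pow_lt_pow_left₀ _ (by positivity) (by omega)
      linarith
    linarith

end Pool.Agent.D0H49.KC
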