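import Pool.Agent.D0H34.KC.Stm3
import Pool.Agent.H884R2.Sko.Split

/-!
# Module SPL of project KC of helper34 (MP_176ace_nt): a monic integral polynomial splits modulo infinitely many primes
-/

set_option autoImplicit false

open Polynomial

namespace Pool.Agent.D0H49.KC

open Pool.Agent.D0H34.KC

/-- Module SPL. -/
theorem t_SPL : S_SPL := fun P B hP => Pool.Agent.H884R2.Sko.exists_split P hP B

end Pool.Agent.D0H49.KC
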