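import Pool.Agent.D0H34.KC.Stm3
import Pool.Agent.D0H16.KC.Loc

/-!
# Module TT of project KC of helper34 (MP_176ace_nt): double transitivity
-/

set_option autoImplicit false

open Polynomial

namespace Pool.Agent.D0H49.KC

open Pool.Agent.D0H34.KC

theorem isAlgQ : Algebra.IsAlgebraic ℚ (AlgebraicClosure ℚ) := ⟨fun x => by
  obtain ⟨p, hp, h⟩ := (AlgebraicClosure.isAlgebraic ℚ).isAlgebraic x
  refine ⟨p, hp, ?_⟩
  rw [aeval_def] at h ⊢
  rw [← h]
  congr 1⟩

theorem aclQ : IsAlgClosure ℚ (AlgebraicClosure ℚ) := ⟨inferInstance, isAlgQ⟩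

/-- embeddings extend to automorphisms -/
theorem lift_emb (L : IntermediateField ℚ (AlgebraicClosure ℚ))
    (χ : L →ₐ[ℚ] AlgebraicClosure ℚ) :
    ∃ σ : AlgebraicClosure ℚ ≃ₐ[ℚ] AlgebraicClosure ℚ, ∀ x : L, σ (x : AlgebraicClosure ℚ) = χ x := by
  have hacl := aclQ
  have hN : Normal ℚ (AlgebraicClosure ℚ) := IsAlgClosure.normal ℚ _
  let φ : AlgebraicClosure ℚ →ₐ[ℚ] AlgebraicClosure ℚ := χ.liftNormal (AlgebraicClosure ℚ)
  refine ⟨AlgEquiv.ofBijective φ (AlgHom.normal_bijective ℚ _ _ φ), fun x => ?_⟩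
  exact χ.liftNormal_commutes (AlgebraicClosure ℚ) x

/-- the core, for a generator `g` of `L` with `f = (X - g) k`, `k` irreducible over `L` -/
theorem core (L : IntermediateField ℚ (AlgebraicClosure ℚ)) (f : ℤ[X]) (g : L) (k : L[X])
    (hroot : aeval g f = 0) (hall : ∀ y : L, ∃ P : ℚ[X], y = aeval g P)
    (hk : f.map (algebraMap ℤ L) = (X - C g) * k) (hkirr : Irreducible k)
    (φ ψ φ' ψ' : L →ₐ[ℚ] AlgebraicClosure ℚ) (hne : φ ≠ ψ) (hne' : φ' ≠ ψ') :
    ∃ σ : AlgebraicClosure ℚ ≃ₐ[ℚ] AlgebraicClosure ℚ,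
      σ.toAlgHom.comp φ = φ' ∧ σ.toAlgHom.comp ψ = ψ' := by
  have ext_gen : ∀ φ ψ : L →ₐ[ℚ] AlgebraicClosure ℚ, φ g = ψ g → φ = ψ := by
    intro φ ψ he
    refine AlgHom.ext fun x => ?_
    obtain ⟨P, rfl⟩ := hall x
    rw [← aeval_algHom_apply, ← aeval_algHom_apply, he]
  obtain ⟨τφ, hτφ⟩ := lift_emb L φ
  obtain ⟨τ, hτ⟩ := lift_emb L φ'
  -- the first automorphism
  obtain ⟨σ₁, hσ₁⟩ : ∃ σ₁ : AlgebraicClosure ℚ ≃ₐ[ℚ] AlgebraicClosure ℚ, ∀ x : L,
      σ₁ (φ x) = φ' x := by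
    refine ⟨τφ.symm.trans τ, fun x => ?_⟩
    rw [← hτφ, AlgEquiv.trans_apply, AlgEquiv.symm_apply_apply, hτ]
  have hψ₁ : σ₁ (ψ g) ≠ φ' g := by
    intro h
    rw [← hσ₁] at h
    exact hne (ext_gen _ _ (σ₁.injective h)).symm
  have hψ' : ψ' g ≠ φ' g := fun h => hne' (ext_gen _ _ h).symm
  have hint : ∀ (s : AlgebraicClosure ℚ ≃ₐ[ℚ] AlgebraicClosure ℚ) (z : AlgebraicClosure ℚ),
      aeval (s z) f = s (aeval z f) := fun s z => by
    rw [aeval_def, aeval_def]
    have h2 := hom_eval₂ f (algebraMap ℤ (AlgebraicClosure ℚ)) (s.toAlgHom : AlgebraicClosure ℚ →+* AlgebraicClosure ℚ) z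
    rw [show ((s.toAlgHom : AlgebraicClosure ℚ →+* AlgebraicClosure ℚ)
      (eval₂ (algebraMap ℤ (AlgebraicClosure ℚ)) z f)) = s (eval₂ (algebraMap ℤ (AlgebraicClosure ℚ)) z f) from rfl] at h2
    rw [h2]
    congr 1
    exact RingHom.ext_int _ _
  -- roots of `k`
  have hroot' : ∀ z : AlgebraicClosure ℚ, aeval z f = 0 → z ≠ φ' g →
      aeval (τ.symm z) k = 0 := by
    intro z hz hzne
    have h1 : aeval (τ.symm z) f = 0 := by
      rw [hint, hz, map_zero]
    have h3 : aeval (τ.symm z) (f.map (algebraMap ℤ L)) = 0 := by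
      rw [aeval_map_algebraMap]
      exact h1
    rw [hk, map_mul] at h3
    rcases mul_eq_zero.1 h3 with h4 | h4
    · exfalso
      rw [map_sub, aeval_X, aeval_C, sub_eq_zero] at h4
      apply hzne
      have h5 := congrArg τ h4
      rw [AlgEquiv.apply_symm_apply] at h5
      rw [h5]
      exact hτ g
    · exact h4
  have hval : ∀ χ : L →ₐ[ℚ] AlgebraicClosure ℚ, aeval (χ g) f = 0 := by
    intro χ
    have h1 : aeval (χ g) f = χ (aeval g f) := by
      rw [aeval_def, aeval_def]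
      have h2 := hom_eval₂ f (algebraMap ℤ L) (χ : L →+* AlgebraicClosure ℚ) g
      rw [show ((χ : L →+* AlgebraicClosure ℚ) (eval₂ (algebraMap ℤ L) g f)) =
        χ (eval₂ (algebraMap ℤ L) g f) from rfl] at h2
      rw [h2]
      congr 1
      exact RingHom.ext_int _ _
    rw [h1, hroot, map_zero]
  have hz1 : aeval (σ₁ (ψ g)) f = 0 := by
    rw [hint, hval, map_zero]
  have hz2 : aeval (ψ' g) f = 0 := hval ψ'
  have ha := hroot' _ hz1 hψ₁
  have hb := hroot' _ hz2 hψ'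
  have hconj : IsConjRoot L (τ.symm (σ₁ (ψ g))) (τ.symm (ψ' g)) := by
    rw [isConjRoot_def, ← minpoly.eq_of_irreducible hkirr ha, ← minpoly.eq_of_irreducible hkirr hb]
  have hacl := aclQ
  have hNQ : Normal ℚ (AlgebraicClosure ℚ) := IsAlgClosure.normal ℚ _
  have hN : Normal L (AlgebraicClosure ℚ) := Normal.tower_top_of_normal ℚ L (AlgebraicClosure ℚ)
  obtain ⟨ρ, hρ⟩ := hconj.symm.exists_algEquiv
  let ρF : AlgebraicClosure ℚ ≃ₐ[ℚ] AlgebraicClosure ℚ := ρ.restrictScalars ℚ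
  have hρF : ∀ z, ρF z = ρ z := fun z => rfl
  -- the second automorphism
  let σ₂ : AlgebraicClosure ℚ ≃ₐ[ℚ] AlgebraicClosure ℚ := (τ.symm.trans ρF).trans τ
  have h21 : ∀ x : L, σ₂ (φ' x) = φ' x := by
    intro x
    show τ (ρ (τ.symm (φ' x))) = φ' x
    rw [← hτ, AlgEquiv.symm_apply_apply]
    have : ρ ((x : L) : AlgebraicClosure ℚ) = (x : AlgebraicClosure ℚ) := ρ.commutes x
    rw [this]
  have h22 : σ₂ (σ₁ (ψ g)) = ψ' g := by
    show τ (ρ (τ.symm (σ₁ (ψ g)))) = ψ' g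
    rw [hρ, AlgEquiv.apply_symm_apply]
  refine ⟨σ₁.trans σ₂, ?_, ?_⟩
  · refine AlgHom.ext fun x => ?_
    show σ₂ (σ₁ (φ x)) = φ' x
    rw [hσ₁, h21]
  · refine ext_gen _ _ ?_
    exact h22

/-- Module TT. -/
theorem t_TT : S_TT := by
  intro f p _ t E hf hirr hE hEirr hfac θ hθ φ ψ φ' ψ' hne hne'
  have halg := isAlgQ
  have hint : IsIntegral ℚ θ := (isAlgQ.isAlgebraic θ).isIntegral
  let g : IntermediateField.adjoin ℚ {θ} := IntermediateField.AdjoinSimple.gen ℚ θ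
  have hg : algebraMap (IntermediateField.adjoin ℚ {θ}) (AlgebraicClosure ℚ) g = θ :=
    IntermediateField.AdjoinSimple.algebraMap_gen ℚ θ
  have hroot : aeval g f = 0 := by
    apply (algebraMap (IntermediateField.adjoin ℚ {θ}) (AlgebraicClosure ℚ)).injective
    rw [map_zero, ← aeval_algebraMap_apply, hg]
    exact hθ
  have hall : ∀ y : IntermediateField.adjoin ℚ {θ}, ∃ P : ℚ[X], y = aeval g P := by
    intro y
    obtain ⟨P, hP⟩ := (IntermediateField.adjoin.powerBasis hint).exists_eq_aeval' y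
    refine ⟨P, ?_⟩
    rw [IntermediateField.adjoin.powerBasis_gen] at hP
    exact hP
  have ht : aeval t f = 0 := by
    have h1 : eval t (f.map (Int.castRingHom ℚ_[p])) = 0 := by
      rw [hfac, eval_mul, eval_sub, eval_X, eval_C, sub_self, zero_mul]
    rw [eval_map] at h1
    exact h1
  obtain ⟨ι, hι⟩ := Pool.Agent.D0H16.KC.existsHom (IntermediateField.adjoin ℚ {θ}) ℚ_[p] f g t hf
    hirr hroot hall ht
  -- the factor `k`
  have hdvd : (X - C g) ∣ f.map (algebraMap ℤ (IntermediateField.adjoin ℚ {θ})) := by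
    rw [dvd_iff_isRoot, IsRoot.def, eval_map]
    exact hroot
  obtain ⟨k, hk⟩ := hdvd
  have hkmap : k.map ι = E := by
    have h1 := congrArg (Polynomial.map ι) hk
    rw [Polynomial.map_map, Polynomial.map_mul, Polynomial.map_sub, map_X, map_C, hι,
      show ι.comp (algebraMap ℤ (IntermediateField.adjoin ℚ {θ})) = Int.castRingHom ℚ_[p] from
        RingHom.ext_int _ _, hfac] at h1
    exact (mul_left_cancel₀ (X_sub_C_ne_zero t) h1).symm
  have hkmon : k.Monic := (monic_X_sub_C g).of_mul_monic_left (by rw [← hk]; exact hf.map _)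
  have hkirr : Irreducible k := by
    apply Monic.irreducible_of_irreducible_map ι k hkmon
    rw [hkmap]
    exact hEirr
  exact core _ f g k hroot hall hk hkirr φ ψ φ' ψ' hne hne'

end Pool.Agent.D0H49.KC
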